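import Pool.Agent.H76.NG.Range

/-!
# `betti` as the cardinality of an index set

`IsIdx s p` : `p` is the smallest vertex of its component in the graph of `s`, and it is not the
smallest vertex of the graph.
-/

set_option autoImplicit false

namespace Pool.Agent.H76.NG

set_option maxRecDepth 100000 in
set_option synthInstance.maxSize 100000 in
set_option synthInstance.maxHeartbeats 0 in
theorem cnt_sub_one : ∀ (e01 e02 e03 e12 e13 e23 v0 v1 v2 v3 : Bool),
    cnt v0 v1 v2 v3 (connB (adjB e01 e02 e03 e12 e13 e23)) - 1 =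
      (Finset.univ.filter (fun p : Fin 4 => vec v0 v1 v2 v3 p = true ∧
        (∀ q : Fin 4, q < p → vec v0 v1 v2 v3 q = true →
          connB (adjB e01 e02 e03 e12 e13 e23) q p = false) ∧
        ∃ q : Fin 4, q < p ∧ vec v0 v1 v2 v3 q = true)).card := by
  decide +kernel

namespace SG

/-- `p` is the smallest vertex of its component, and not the smallest vertex -/
def IsIdx (G : SG) (s : ℤ) (p : Fin 4) : Prop :=
  G.S (s - G.n p) ∧ (∀ q : Fin 4, q < p → G.S (s - G.n q) → ¬ Conn G.S G.n s q p) ∧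
    ∃ q : Fin 4, q < p ∧ G.S (s - G.n q)

variable {G : SG}

open Classical in
theorem h0S_eq (s : ℤ) : G.h0S s = (Finset.univ.filter (fun p : Fin 4 => G.IsIdx s p)).card := by
  unfold h0S cc
  rw [cnt_sub_one]
  congr 1
  apply Finset.filter_congr
  intro p _
  unfold IsIdx
  have key : ∀ q : Fin 4, q < p → ((connB (adjB (G.bS (s - G.n 0 - G.n 1))
      (G.bS (s - G.n 0 - G.n 2)) (G.bS (s - G.n 0 - G.n 3)) (G.bS (s - G.n 1 - G.n 2))
      (G.bS (s - G.n 1 - G.n 3)) (G.bS (s - G.n 2 - G.n 3))) q p = false) ↔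
      ¬ Conn G.S G.n s q p) := by
    intro q hq
    have := connB_iff G.S G.n s (p := q) (q := p) hq.ne
    rw [← this, Bool.not_eq_true]
    rfl
  constructor
  · rintro ⟨h1, h2, q, hq, h3⟩
    exact ⟨(vec_bS s p).1 h1, fun q hq hS => (key q hq).1 (h2 q hq ((vec_bS s q).2 hS)),
      q, hq, (vec_bS s q).1 h3⟩
  · rintro ⟨h1, h2, q, hq, h3⟩
    exact ⟨(vec_bS s p).2 h1, fun q hq hS => (key q hq).2 (h2 q hq ((vec_bS s q).1 hS)),
      q, hq, (vec_bS s q).2 h3⟩

theorem IsIdx.mem_rng {s : ℤ} {p : Fin 4} (h : G.IsIdx s p) : s ∈ G.rng := by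
  classical
  by_contra hs
  have h1 := h0S_eq_zero_of_not_mem hs
  rw [h0S_eq, Finset.card_eq_zero] at h1
  have : p ∈ (Finset.univ.filter (fun p : Fin 4 => G.IsIdx s p)) := by simp [h]
  rw [h1] at this
  simp at this

open Classical in
/-- the finite set of indices -/
noncomputable def idx (G : SG) : Finset (ℤ × Fin 4) :=
  (G.rng ×ˢ Finset.univ).filter (fun x => G.IsIdx x.1 x.2)

theorem mem_idx {s : ℤ} {p : Fin 4} : (s, p) ∈ G.idx ↔ G.IsIdx s p := by
  unfold idx
  simp only [Finset.mem_filter, Finset.mem_product, Finset.mem_univ, and_true]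
  exact ⟨fun h => h.2, fun h => ⟨h.mem_rng, h⟩⟩

theorem betti_eq_card : G.betti = G.idx.card := by
  classical
  unfold betti idx
  rw [Finset.card_filter, Finset.sum_product]
  apply Finset.sum_congr rfl
  intro s _
  rw [h0S_eq, Finset.card_filter]

end SG

end Pool.Agent.H76.NG
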