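import Pool.Agent.H76.NG.Rel
import Pool.Agent.H76.NG.Idx

/-!
# The toric ideal and its minimal number of generators
-/

set_option autoImplicit false

namespace Pool.Agent.H76.NG

universe u

/-- the defining ideal: kernel of `k[x₁, …, x₄] → k[t]`, `x_i ↦ t ^ (n i)` -/
noncomputable def toric (k : Type u) [Field k] (n : Fin 4 → ℕ) : Ideal (MvPolynomial (Fin 4) k) :=
  RingHom.ker (MvPolynomial.aeval (R := k)
    (fun i : Fin 4 => (Polynomial.X : Polynomial k) ^ n i)).toRingHom

/-- the minimal number of generators of an ideal -/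
noncomputable def mu {R : Type u} [CommRing R] (I : Ideal R) : ℕ :=
  sInf {m : ℕ | ∃ s : Finset R, s.card = m ∧ Ideal.span (s : Set R) = I}

/-- the degree as a natural number -/
def degN (n : Fin 4 → ℕ) (u : Fin 4 → ℕ) : ℕ := u 0 * n 0 + u 1 * n 1 + u 2 * n 2 + u 3 * n 3

/-- a monomial -/
noncomputable def mon (k : Type u) [Field k] (u : Fin 4 → ℕ) : MvPolynomial (Fin 4) k :=
  MvPolynomial.monomial (Finsupp.equivFunOnFinite.symm u) 1

theorem SG.deg_eq_degN {G : SG} {n : Fin 4 → ℕ} (hn : ∀ i, G.n i = n i) (u : Fin 4 → ℕ) :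
    G.deg u = degN n u := by
  unfold SG.deg degN
  rw [hn, hn, hn, hn]
  push_cast
  ring

end Pool.Agent.H76.NG
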