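import Pool.Agent.H76.NG.T3

/-!
# Type 3, only one generator in `D`: normal forms of the data
-/

set_option autoImplicit false

namespace Pool.Agent.H76.NG

namespace SG

/-- the conclusion: six generators, and not fewer -/
def Good6 (G : SG) : Prop :=
  (∃ L : List ((Fin 4 → ℕ) × (Fin 4 → ℕ)), L.length ≤ 6 ∧ G.Complete L) ∧ 6 ≤ G.betti

/-- first family: `n 1 = n 0 + d1`, `n 2 = n 0 + d2`, `n 3 = α n 1 + β n 2 + d1` -/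
structure AlphaData (G : SG) (d1 d2 : ℤ) (α β k : ℕ) : Prop where
  t3 : G.T3 d1 d2
  h0 : G.D (G.n 0)
  h1 : G.n 1 = G.n 0 + d1
  h2 : G.n 2 = G.n 0 + d2
  h3 : G.n 3 = α * G.n 1 + β * G.n 2 + d1
  hd : G.D (α * G.n 1 + β * G.n 2)
  hk : 1 ≤ k
  hm : G.F + G.n 0 = (k + 1) * G.n 3

/-- second family: `n 1 = n 0 + d1`, `n 2 = γ n 1 + d1`, `n 3 = γ n 1 + d2`, `n 0 + d2 = p n 2` -/
structure BetaData (G : SG) (d1 d2 : ℤ) (γ p : ℕ) : Prop where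
  t3 : G.T3 d1 d2
  h0 : G.D (G.n 0)
  h1 : G.n 1 = G.n 0 + d1
  h2 : G.n 2 = γ * G.n 1 + d1
  h3 : G.n 3 = γ * G.n 1 + d2
  hp : G.n 0 + d2 = p * G.n 2
  hγ : 2 ≤ γ
  hp2 : 2 ≤ p
  hd : G.D (γ * G.n 1)

end SG

end Pool.Agent.H76.NG
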