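import Pool.Agent.H76.NG.Graph

/-!
# Numerical semigroups with four generators: basic notions

`SG` : a numerical semigroup `S` (a predicate on `ℤ`) with its four minimal generators `n i` and
its Frobenius number `F`.  `K x` : `F - x ∉ S` (standard canonical ideal).
`D x` : `x + K ⊆ S`.
-/

set_option autoImplicit false

namespace Pool.Agent.H76.NG

/-- A numerical semigroup with four minimal generators. -/
structure SG where
  n : Fin 4 → ℤ
  S : ℤ → Prop
  F : ℤ
  npos : ∀ i, 0 < n i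
  zero : S 0
  add : ∀ {x y : ℤ}, S x → S y → S (x + y)
  gen : ∀ i, S (n i)
  nonneg : ∀ {x : ℤ}, S x → 0 ≤ x
  dec : ∀ {x : ℤ}, S x → x ≠ 0 → ∃ i, S (x - n i)
  frob : ¬ S F
  big : ∀ {x : ℤ}, F < x → S x
  min : ∀ {i j : Fin 4}, i ≠ j → ¬ S (n i - n j)

namespace SG

variable (G : SG)

/-- the standard canonical ideal -/
def K (x : ℤ) : Prop := ¬ G.S (G.F - x)

/-- `x + K ⊆ S` -/
def D (x : ℤ) : Prop := ∀ y, G.K y → G.S (x + y)

/-- sum of the generators -/
def N : ℤ := G.n 0 + G.n 1 + G.n 2 + G.n 3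

/-- pseudo-Frobenius numbers -/
def IsPF (f : ℤ) : Prop := ¬ G.S f ∧ ∀ i, G.S (f + G.n i)

/-- type 2: `K = S ∪ (d + S)` -/
structure T2 (d : ℤ) : Prop where
  kgen : ∀ {x : ℤ}, G.K x → G.S x ∨ G.S (x - d)
  kd : G.K d
  nd : ¬ G.S d

/-- type 3: `K = S ∪ (d₁ + S) ∪ (d₂ + S)` -/
structure T3 (d1 d2 : ℤ) : Prop where
  kgen : ∀ {x : ℤ}, G.K x → G.S x ∨ G.S (x - d1) ∨ G.S (x - d2)
  kd1 : G.K d1
  kd2 : G.K d2
  nd1 : ¬ G.S d1
  nd2 : ¬ G.S d2
  nd12 : ¬ G.S (d1 - d2)
  nd21 : ¬ G.S (d2 - d1)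

open Classical in
/-- membership in `S` as a Boolean -/
noncomputable def bS (x : ℤ) : Bool := decide (G.S x)

open Classical in
/-- membership in `K` as a Boolean -/
noncomputable def bK (x : ℤ) : Bool := decide (G.K x)

/-- number of connected components of the `S`-graph of `s`, minus one -/
noncomputable def h0S (s : ℤ) : ℕ :=
  cc (G.bS (s - G.n 0)) (G.bS (s - G.n 1)) (G.bS (s - G.n 2)) (G.bS (s - G.n 3))
    (G.bS (s - G.n 0 - G.n 1)) (G.bS (s - G.n 0 - G.n 2)) (G.bS (s - G.n 0 - G.n 3))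
    (G.bS (s - G.n 1 - G.n 2)) (G.bS (s - G.n 1 - G.n 3)) (G.bS (s - G.n 2 - G.n 3)) - 1

/-- number of connected components of the `K`-graph of `s`, minus one -/
noncomputable def h0K (s : ℤ) : ℕ :=
  cc (G.bK (s - G.n 0)) (G.bK (s - G.n 1)) (G.bK (s - G.n 2)) (G.bK (s - G.n 3))
    (G.bK (s - G.n 0 - G.n 1)) (G.bK (s - G.n 0 - G.n 2)) (G.bK (s - G.n 0 - G.n 3))
    (G.bK (s - G.n 1 - G.n 2)) (G.bK (s - G.n 1 - G.n 3)) (G.bK (s - G.n 2 - G.n 3)) - 1

/-- number of connected components of the `K`-graph of `s` which contain a vertex of the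
`S`-graph -/
noncomputable def cm (s : ℤ) : ℕ :=
  cnt (G.bS (s - G.n 0)) (G.bS (s - G.n 1)) (G.bS (s - G.n 2)) (G.bS (s - G.n 3))
    (connB (adjB (G.bK (s - G.n 0 - G.n 1)) (G.bK (s - G.n 0 - G.n 2)) (G.bK (s - G.n 0 - G.n 3))
      (G.bK (s - G.n 1 - G.n 2)) (G.bK (s - G.n 1 - G.n 3)) (G.bK (s - G.n 2 - G.n 3))))

/-- the range of degrees -/
noncomputable def rng : Finset ℤ := Finset.Icc 0 (G.F + G.N)

/-- the sum of all `h0S s` (equal to the minimal number of generators of the toric ideal) -/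
noncomputable def betti : ℕ := ∑ s ∈ G.rng, G.h0S s

/-! ### elementary facts -/

variable {G}

theorem S_nsmul {x : ℤ} (h : G.S x) (a : ℕ) : G.S (a * x) := by
  induction a with
  | zero => simpa using G.zero
  | succ a ih =>
    have : ((a + 1 : ℕ) : ℤ) * x = a * x + x := by push_cast; ring
    rw [this]
    exact G.add ih h

theorem S_comb (a b c e : ℕ) :
    G.S (a * G.n 0 + b * G.n 1 + c * G.n 2 + e * G.n 3) :=
  G.add (G.add (G.add (S_nsmul (G.gen 0) a) (S_nsmul (G.gen 1) b)) (S_nsmul (G.gen 2) c))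
    (S_nsmul (G.gen 3) e)

/-- every element of `S` has a factorization -/
theorem fac {x : ℤ} (h : G.S x) :
    ∃ a b c e : ℕ, x = a * G.n 0 + b * G.n 1 + c * G.n 2 + e * G.n 3 := by
  have key : ∀ m : ℕ, ∀ x : ℤ, x.toNat ≤ m → G.S x →
      ∃ a b c e : ℕ, x = a * G.n 0 + b * G.n 1 + c * G.n 2 + e * G.n 3 := by
    intro m
    induction m with
    | zero =>
      intro x hx hS
      have h0 := G.nonneg hS
      exact ⟨0, 0, 0, 0, by simp; omega⟩
    | succ m ih =>
      intro x hx hS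
      by_cases hx0 : x = 0
      · exact ⟨0, 0, 0, 0, by simp [hx0]⟩
      · obtain ⟨i, hi⟩ := G.dec hS hx0
        have hp := G.npos i
        have h0 := G.nonneg hi
        have h1 := G.nonneg hS
        obtain ⟨a, b, c, e, he⟩ := ih (x - G.n i) (by omega) hi
        fin_cases i
        · exact ⟨a + 1, b, c, e, by push_cast; simp at he; linarith⟩
        · exact ⟨a, b + 1, c, e, by push_cast; simp at he; linarith⟩
        · exact ⟨a, b, c + 1, e, by push_cast; simp at he; linarith⟩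
        · exact ⟨a, b, c, e + 1, by push_cast; simp at he; linarith⟩
  exact key _ x le_rfl h

theorem K_of_S {x : ℤ} (h : G.S x) : G.K x := by
  intro h'
  apply G.frob
  have := G.add h' h
  simpa using this

theorem K_add {x s : ℤ} (h : G.K x) (hs : G.S s) : G.K (x + s) := by
  intro h'
  apply h
  have := G.add h' hs
  have e : G.F - (x + s) + s = G.F - x := by ring
  rwa [e] at this

theorem K_nonneg {x : ℤ} (h : G.K x) : 0 ≤ x := by
  by_contra hx
  exact h (G.big (by omega))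

theorem not_K_iff {x : ℤ} : ¬ G.K x ↔ G.S (G.F - x) := by
  unfold K; exact not_not

/-- duality on `K \ S` -/
theorem W_dual {x : ℤ} (h : G.K x) (h' : ¬ G.S x) :
    G.K (G.F - x) ∧ ¬ G.S (G.F - x) := by
  refine ⟨?_, h⟩
  unfold K
  rwa [sub_sub_cancel]

theorem D_S {x : ℤ} (h : G.D x) : G.S x := by
  have := h 0 (K_of_S G.zero)
  simpa using this

theorem D_add {x s : ℤ} (h : G.D x) (hs : G.S s) : G.D (x + s) := by
  intro y hy
  have e : x + s + y = x + y + s := by ring
  rw [e]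
  exact G.add (h y hy) hs

/-- a minimal generator is not a sum of two nonzero elements -/
theorem gen_not_sum {i : Fin 4} {x y : ℤ} (hx : G.S x) (hx0 : x ≠ 0) (hy : G.S y) (hy0 : y ≠ 0)
    (h : G.n i = x + y) : False := by
  obtain ⟨j, hj⟩ := G.dec hx hx0
  have h1 := G.nonneg hx
  have h2 := G.nonneg hy
  have h3 := G.nonneg hj
  have hij : i ≠ j := by
    rintro rfl
    omega
  apply G.min hij
  have e : G.n i - G.n j = (x - G.n j) + y := by rw [h]; ring
  rw [e]
  exact G.add hj hy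

theorem n_inj {i j : Fin 4} (h : i ≠ j) : G.n i ≠ G.n j := by
  intro e
  apply G.min h
  rw [e, sub_self]
  exact G.zero

theorem F_pos : 0 < G.F := by
  by_contra hF
  have h1 : ∀ x : ℤ, 0 < x → G.S x := fun x hx => G.big (by omega)
  rcases lt_or_gt_of_ne (n_inj (G := G) (i := 0) (j := 1) (by decide)) with h | h
  · exact G.min (i := 1) (j := 0) (by decide) (h1 _ (by omega))
  · exact G.min (i := 0) (j := 1) (by decide) (h1 _ (by omega))

theorem N_pos : 0 < G.N := by
  have h0 := G.npos 0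
  have h1 := G.npos 1
  have h2 := G.npos 2
  have h3 := G.npos 3
  unfold N; omega

theorem vec_bS (s : ℤ) (p : Fin 4) :
    vec (G.bS (s - G.n 0)) (G.bS (s - G.n 1)) (G.bS (s - G.n 2)) (G.bS (s - G.n 3)) p = true ↔
      G.S (s - G.n p) := by
  fin_cases p <;> simp [vec, bS]

/-- all `S`-vertices are connected in the `K`-graph -/
theorem cm_le_one_iff (s : ℤ) :
    G.cm s ≤ 1 ↔ ∀ p q : Fin 4, p ≠ q → G.S (s - G.n p) → G.S (s - G.n q) →
      Conn G.K G.n s p q := by
  unfold cm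
  rw [cnt_le_one_iff]
  constructor
  · intro h p q hpq hp hq
    have := h p q hpq ((vec_bS s p).2 hp) ((vec_bS s q).2 hq)
    exact (connB_iff G.K G.n s hpq).1 this
  · intro h p q hpq hp hq
    exact (connB_iff G.K G.n s hpq).2 (h p q hpq ((vec_bS s p).1 hp) ((vec_bS s q).1 hq))

/-- two `S`-vertices which are not connected in the `K`-graph -/
theorem two_le_cm {s : ℤ} {p q : Fin 4} (hp : G.S (s - G.n p)) (hq : G.S (s - G.n q))
    (h : ¬ Conn G.K G.n s p q) : 2 ≤ G.cm s := by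
  by_contra hc
  have hpq : p ≠ q := by
    rintro rfl
    exact h Relation.ReflTransGen.refl
  exact h ((cm_le_one_iff s).1 (by omega) p q hpq hp hq)

/-- two `S`-vertices which are not connected in the `S`-graph -/
theorem one_le_h0S {s : ℤ} {p q : Fin 4} (hp : G.S (s - G.n p)) (hq : G.S (s - G.n q))
    (h : ¬ Conn G.S G.n s p q) : 1 ≤ G.h0S s := by
  have hpq : p ≠ q := by
    rintro rfl
    exact h Relation.ReflTransGen.refl
  unfold h0S cc
  by_contra hc
  have h1 := (cnt_le_one_iff (G.bS (s - G.n 0 - G.n 1)) (G.bS (s - G.n 0 - G.n 2))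
    (G.bS (s - G.n 0 - G.n 3)) (G.bS (s - G.n 1 - G.n 2)) (G.bS (s - G.n 1 - G.n 3))
    (G.bS (s - G.n 2 - G.n 3)) (G.bS (s - G.n 0)) (G.bS (s - G.n 1)) (G.bS (s - G.n 2))
    (G.bS (s - G.n 3))).1 (by omega) p q hpq ((vec_bS s p).2 hp) ((vec_bS s q).2 hq)
  exact h ((connB_iff G.S G.n s hpq).1 h1)

/-- a set of vertices without edges to its complement -/
theorem not_conn_of_closed {P : ℤ → Prop} {n : Fin 4 → ℤ} {s : ℤ} (C : Fin 4 → Prop)
    {p q : Fin 4} (hp : C p) (hq : ¬ C q)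
    (h : ∀ a b, C a → ¬ C b → ¬ P (s - n a - n b)) : ¬ Conn P n s p q := by
  intro hc
  have key : ∀ r, Conn P n s p r → C r := by
    intro r hr
    induction hr with
    | refl => exact hp
    | tail _ h2 ih =>
      by_contra hr
      exact h _ _ ih hr h2.2
  exact hq (key q hc)

/-- direct non-adjacency in the `K`-graph -/
theorem not_adj_K {s : ℤ} {p q : Fin 4} (h : ¬ Adj G.K G.n s p q) (hpq : p ≠ q) :
    G.S (G.F + G.n p + G.n q - s) := by
  unfold Adj at h
  push Not at h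
  have h1 := not_K_iff.1 (h hpq)
  have e : G.F - (s - G.n p - G.n q) = G.F + G.n p + G.n q - s := by ring
  rwa [e] at h1

theorem adj_K_iff {s : ℤ} {p q : Fin 4} (hpq : p ≠ q) :
    Adj G.K G.n s p q ↔ ¬ G.S (G.F + G.n p + G.n q - s) := by
  unfold Adj K
  have e : G.F - (s - G.n p - G.n q) = G.F + G.n p + G.n q - s := by ring
  rw [e]
  exact ⟨fun h => h.2, fun h => ⟨hpq, h⟩⟩

end SG

end Pool.Agent.H76.NG
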