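import Mathlib

/-!
# Graphs on four vertices, Boolean count of connected components
-/

set_option autoImplicit false

namespace Pool.Agent.H76.NG

/-- adjacency on `Fin 4` given by six Booleans -/
def adjB (e01 e02 e03 e12 e13 e23 : Bool) (p q : Fin 4) : Bool :=
  match p, q with
  | 0, 1 => e01 | 1, 0 => e01
  | 0, 2 => e02 | 2, 0 => e02
  | 0, 3 => e03 | 3, 0 => e03
  | 1, 2 => e12 | 2, 1 => e12
  | 1, 3 => e13 | 3, 1 => e13
  | 2, 3 => e23 | 3, 2 => e23
  | _, _ => false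

/-- connectivity by paths of length `≤ 3` -/
def connB (e : Fin 4 → Fin 4 → Bool) (p q : Fin 4) : Bool :=
  e p q || (e p 0 && e 0 q) || (e p 1 && e 1 q) || (e p 2 && e 2 q) || (e p 3 && e 3 q) ||
  (e p 0 && e 0 1 && e 1 q) || (e p 0 && e 0 2 && e 2 q) || (e p 0 && e 0 3 && e 3 q) ||
  (e p 1 && e 1 0 && e 0 q) || (e p 1 && e 1 2 && e 2 q) || (e p 1 && e 1 3 && e 3 q) ||
  (e p 2 && e 2 0 && e 0 q) || (e p 2 && e 2 1 && e 1 q) || (e p 2 && e 2 3 && e 3 q) ||
  (e p 3 && e 3 0 && e 0 q) || (e p 3 && e 3 1 && e 1 q) || (e p 3 && e 3 2 && e 2 q)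

/-- number of classes (for the relation `c`) which meet the set `v` -/
def cnt (v0 v1 v2 v3 : Bool) (c : Fin 4 → Fin 4 → Bool) : ℕ :=
  v0.toNat + (v1 && !(v0 && c 0 1)).toNat + (v2 && !(v0 && c 0 2) && !(v1 && c 1 2)).toNat +
    (v3 && !(v0 && c 0 3) && !(v1 && c 1 3) && !(v2 && c 2 3)).toNat

def cc (v0 v1 v2 v3 e01 e02 e03 e12 e13 e23 : Bool) : ℕ :=
  cnt v0 v1 v2 v3 (connB (adjB e01 e02 e03 e12 e13 e23))

set_option maxRecDepth 100000 in
set_option synthInstance.maxSize 100000 in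
set_option synthInstance.maxHeartbeats 0 in
/-- Euler characteristic and Alexander duality for complexes on four vertices. -/
theorem local_dual : ∀ (s : Bool),
    ∀ v0 : Bool, (v0 → s) → ∀ v1 : Bool, (v1 → s) → ∀ v2 : Bool, (v2 → s) → ∀ v3 : Bool, (v3 → s) →
    ∀ e01 : Bool, (e01 → v0 ∧ v1) → ∀ e02 : Bool, (e02 → v0 ∧ v2) → ∀ e03 : Bool, (e03 → v0 ∧ v3) →
    ∀ e12 : Bool, (e12 → v1 ∧ v2) → ∀ e13 : Bool, (e13 → v1 ∧ v3) → ∀ e23 : Bool, (e23 → v2 ∧ v3) →
    ∀ t0 : Bool, (t0 → e12 ∧ e13 ∧ e23) → ∀ t1 : Bool, (t1 → e02 ∧ e03 ∧ e23) →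
    ∀ t2 : Bool, (t2 → e01 ∧ e03 ∧ e13) → ∀ t3 : Bool, (t3 → e01 ∧ e02 ∧ e12) →
    ∀ q : Bool, (q → t0 ∧ t1 ∧ t2 ∧ t3) →
    (cc v0 v1 v2 v3 e01 e02 e03 e12 e13 e23 - 1) + s.toNat +
      (e01.toNat + e02.toNat + e03.toNat + e12.toNat + e13.toNat + e23.toNat) + q.toNat +
      (t0 && t1 && t2 && t3 && !q).toNat =
    (cc (!t0) (!t1) (!t2) (!t3) (!e23) (!e13) (!e12) (!e03) (!e02) (!e01) - 1) +
      (v0.toNat + v1.toNat + v2.toNat + v3.toNat) + (t0.toNat + t1.toNat + t2.toNat + t3.toNat) +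
      (s && !v0 && !v1 && !v2 && !v3).toNat := by
  decide +kernel

set_option maxRecDepth 100000 in
set_option synthInstance.maxSize 100000 in
set_option synthInstance.maxHeartbeats 0 in
/-- Local count for `K / S` when two of the generators (number 0 and 1) annihilate it.
`k` : `s ∈ K`, `s` : `s ∈ S`, `v` vertices of the `K`-complex, `u` vertices of the `S`-complex,
`e` edges of the `K`-complex, `f23` the edge `23` of the `S`-complex. -/
theorem local_count : ∀ (k : Bool), ∀ s : Bool, (s → k) →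
    ∀ v0 : Bool, (v0 → s) → ∀ v1 : Bool, (v1 → s) → ∀ v2 : Bool, (v2 → k) → ∀ v3 : Bool, (v3 → k) →
    ∀ u0 : Bool, (u0 → v0) → ∀ u1 : Bool, (u1 → v1) → ∀ u2 : Bool, (u2 → v2 ∧ s) →
    ∀ u3 : Bool, (u3 → v3 ∧ s) → (s → (u0 ∨ u1 ∨ u2 ∨ u3) ∨ ¬ (v0 ∨ v1 ∨ v2 ∨ v3)) →
    ∀ e01 : Bool, (e01 → u0 ∧ u1) → ∀ e02 : Bool, (e02 → v0 ∧ u2) → ∀ e03 : Bool, (e03 → v0 ∧ u3) →
    ∀ e12 : Bool, (e12 → v1 ∧ u2) → ∀ e13 : Bool, (e13 → v1 ∧ u3) → ∀ e23 : Bool, (e23 → v2 ∧ v3) →
    ∀ f23 : Bool, (f23 → u2 ∧ u3 ∧ e23) → (e23 && !f23 && u2 → s) →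
    (cc v0 v1 v2 v3 e01 e02 e03 e12 e13 e23 - 1) + (k && !s).toNat + (e23 && !f23).toNat =
    (cnt u0 u1 u2 u3 (connB (adjB e01 e02 e03 e12 e13 e23)) - 1) +
      (v0 && !u0 && !e01 && !e02 && !e03).toNat + (v1 && !u1 && !e01 && !e12 && !e13).toNat +
      (v2 && !u2).toNat + (v3 && !u3).toNat +
      (e23 && !f23 && !(v2 && !u2) && !(v3 && !u3)).toNat +
      (k && !s && !(v2 && !u2) && !(v3 && !u3)).toNat := by
  decide +kernel

set_option maxRecDepth 100000 in
set_option synthInstance.maxSize 100000 in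
set_option synthInstance.maxHeartbeats 0 in
theorem connB_step : ∀ (e01 e02 e03 e12 e13 e23 : Bool) (p q r : Fin 4),
    connB (adjB e01 e02 e03 e12 e13 e23) p q → adjB e01 e02 e03 e12 e13 e23 q r →
      p = r ∨ connB (adjB e01 e02 e03 e12 e13 e23) p r := by
  decide +kernel

/-- four Booleans as a function -/
def vec (v0 v1 v2 v3 : Bool) (p : Fin 4) : Bool :=
  match p with
  | 0 => v0 | 1 => v1 | 2 => v2 | 3 => v3

set_option maxRecDepth 100000 in
set_option synthInstance.maxSize 100000 in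
set_option synthInstance.maxHeartbeats 0 in
theorem cnt_le_one_iff : ∀ (e01 e02 e03 e12 e13 e23 v0 v1 v2 v3 : Bool),
    cnt v0 v1 v2 v3 (connB (adjB e01 e02 e03 e12 e13 e23)) ≤ 1 ↔
      ∀ p q : Fin 4, p ≠ q → vec v0 v1 v2 v3 p → vec v0 v1 v2 v3 q →
        connB (adjB e01 e02 e03 e12 e13 e23) p q := by
  decide +kernel

/-- adjacency in the graph of `s` -/
def Adj (P : ℤ → Prop) (n : Fin 4 → ℤ) (s : ℤ) (p q : Fin 4) : Prop :=
  p ≠ q ∧ P (s - n p - n q)

/-- connectedness in the graph of `s` -/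
def Conn (P : ℤ → Prop) (n : Fin 4 → ℤ) (s : ℤ) : Fin 4 → Fin 4 → Prop :=
  Relation.ReflTransGen (Adj P n s)

theorem Adj.symm {P : ℤ → Prop} {n : Fin 4 → ℤ} {s : ℤ} {p q : Fin 4} (h : Adj P n s p q) :
    Adj P n s q p := by
  refine ⟨h.1.symm, ?_⟩
  have e : s - n q - n p = s - n p - n q := by ring
  rw [e]; exact h.2

theorem Conn.symm {P : ℤ → Prop} {n : Fin 4 → ℤ} {s : ℤ} {p q : Fin 4} (h : Conn P n s p q) :
    Conn P n s q p := by
  induction h with
  | refl => exact Relation.ReflTransGen.refl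
  | tail _ h2 ih => exact Relation.ReflTransGen.head h2.symm ih

open Classical in
theorem adjB_iff (P : ℤ → Prop) (n : Fin 4 → ℤ) (s : ℤ) (p q : Fin 4) :
    adjB (decide (P (s - n 0 - n 1))) (decide (P (s - n 0 - n 2))) (decide (P (s - n 0 - n 3)))
      (decide (P (s - n 1 - n 2))) (decide (P (s - n 1 - n 3))) (decide (P (s - n 2 - n 3))) p q
      = true ↔ Adj P n s p q := by
  unfold Adj
  have e10 : s - n 1 - n 0 = s - n 0 - n 1 := by ring
  have e20 : s - n 2 - n 0 = s - n 0 - n 2 := by ring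
  have e30 : s - n 3 - n 0 = s - n 0 - n 3 := by ring
  have e21 : s - n 2 - n 1 = s - n 1 - n 2 := by ring
  have e31 : s - n 3 - n 1 = s - n 1 - n 3 := by ring
  have e32 : s - n 3 - n 2 = s - n 2 - n 3 := by ring
  fin_cases p <;> fin_cases q <;> simp [adjB, e10, e20, e30, e21, e31, e32]

open Classical in
theorem connB_iff (P : ℤ → Prop) (n : Fin 4 → ℤ) (s : ℤ) {p q : Fin 4} (hpq : p ≠ q) :
    connB (adjB (decide (P (s - n 0 - n 1))) (decide (P (s - n 0 - n 2)))
      (decide (P (s - n 0 - n 3))) (decide (P (s - n 1 - n 2))) (decide (P (s - n 1 - n 3)))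
      (decide (P (s - n 2 - n 3)))) p q = true ↔ Conn P n s p q := by
  have hadj := adjB_iff P n s
  have hst := connB_step (decide (P (s - n 0 - n 1))) (decide (P (s - n 0 - n 2)))
      (decide (P (s - n 0 - n 3))) (decide (P (s - n 1 - n 2))) (decide (P (s - n 1 - n 3)))
      (decide (P (s - n 2 - n 3)))
  generalize adjB (decide (P (s - n 0 - n 1))) (decide (P (s - n 0 - n 2)))
      (decide (P (s - n 0 - n 3))) (decide (P (s - n 1 - n 2))) (decide (P (s - n 1 - n 3)))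
      (decide (P (s - n 2 - n 3))) = e at hadj hst
  constructor
  · intro h
    have one : ∀ {a b : Fin 4}, e a b = true → Conn P n s a b := fun h =>
      Relation.ReflTransGen.single ((hadj _ _).1 h)
    have tr : ∀ {a b c : Fin 4}, Conn P n s a b → Conn P n s b c → Conn P n s a c :=
      fun h1 h2 => Relation.ReflTransGen.trans h1 h2
    unfold connB at h
    simp only [Bool.or_eq_true, Bool.and_eq_true] at h
    rcases h with (((((((((((((((h | h) | h) | h) | h) | h) | h) | h) | h) | h) | h) | h) | h) | h)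
      | h) | h) | h
    · exact one h
    all_goals first
      | exact tr (one h.1) (one h.2)
      | exact tr (tr (one h.1.1) (one h.1.2)) (one h.2)
  · intro h
    have key : ∀ r, Conn P n s p r → p = r ∨ connB e p r = true := by
      intro r hr
      induction hr with
      | refl => exact Or.inl rfl
      | tail h1 h2 ih =>
        have h2' := (hadj _ _).2 h2
        rcases ih with rfl | ih
        · right
          unfold connB
          simp [h2']
        · exact hst _ _ _ ih h2'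
    rcases key q h with h' | h'
    · exact absurd h' hpq
    · exact h'

end Pool.Agent.H76.NG
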