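import Pool.Agent.H76.NG.Basic

/-!
# Degrees outside the range contribute nothing
-/

set_option autoImplicit false

namespace Pool.Agent.H76.NG

namespace SG

variable {G : SG}

theorem h0S_pos_iff (s : ℤ) : 1 ≤ G.h0S s ↔ ∃ p q : Fin 4, p ≠ q ∧ G.S (s - G.n p) ∧
    G.S (s - G.n q) ∧ ¬ Conn G.S G.n s p q := by
  have h := cnt_le_one_iff (G.bS (s - G.n 0 - G.n 1)) (G.bS (s - G.n 0 - G.n 2))
    (G.bS (s - G.n 0 - G.n 3)) (G.bS (s - G.n 1 - G.n 2)) (G.bS (s - G.n 1 - G.n 3))
    (G.bS (s - G.n 2 - G.n 3)) (G.bS (s - G.n 0)) (G.bS (s - G.n 1)) (G.bS (s - G.n 2))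
    (G.bS (s - G.n 3))
  constructor
  · intro h1
    unfold h0S cc at h1
    have h2 := (not_congr h).1 (by omega)
    push Not at h2
    obtain ⟨p, q, hpq, hp, hq, hc⟩ := h2
    refine ⟨p, q, hpq, (vec_bS s p).1 hp, (vec_bS s q).1 hq, ?_⟩
    intro hconn
    exact hc ((connB_iff G.S G.n s hpq).2 hconn)
  · rintro ⟨p, q, hpq, hp, hq, hc⟩
    exact one_le_h0S hp hq hc

theorem h0S_eq_zero_of_not_mem {s : ℤ} (hs : s ∉ G.rng) : G.h0S s = 0 := by
  by_contra h
  obtain ⟨p, q, hpq, hp, hq, hc⟩ := (h0S_pos_iff (G := G) s).1 (by omega)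
  apply hs
  unfold rng
  rw [Finset.mem_Icc]
  constructor
  · have := G.nonneg hp
    have := G.npos p
    omega
  · by_contra hlt
    apply hc
    apply Relation.ReflTransGen.single
    refine ⟨hpq, G.big ?_⟩
    have h0 := G.npos 0
    have h1 := G.npos 1
    have h2 := G.npos 2
    have h3 := G.npos 3
    have : G.n p + G.n q ≤ G.N := by
      unfold N
      fin_cases p <;> fin_cases q <;> simp at hpq ⊢ <;> linarith
    omega

/-- distinct degrees with disconnected graph give a lower bound -/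
theorem card_le_betti (T : Finset ℤ) (hT : ∀ s ∈ T, 1 ≤ G.h0S s) : T.card ≤ G.betti := by
  have hsub : T ⊆ G.rng := by
    intro s hs
    by_contra h
    have := h0S_eq_zero_of_not_mem h
    have := hT s hs
    omega
  calc T.card = ∑ _s ∈ T, 1 := by simp
    _ ≤ ∑ s ∈ T, G.h0S s := Finset.sum_le_sum hT
    _ ≤ G.betti := Finset.sum_le_sum_of_subset hsub

/-- a closed set of vertices (three or four non-edges) gives a disconnected graph -/
theorem one_le_h0S_of_closed {s : ℤ} (C : Fin 4 → Prop) {p q : Fin 4} (hp : C p) (hq : ¬ C q)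
    (hSp : G.S (s - G.n p)) (hSq : G.S (s - G.n q))
    (h : ∀ a b, C a → ¬ C b → ¬ G.S (s - G.n a - G.n b)) : 1 ≤ G.h0S s :=
  one_le_h0S hSp hSq (not_conn_of_closed C hp hq h)

end SG

end Pool.Agent.H76.NG
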