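import Pool.Agent.H76.NG.Basic

/-!
# Binomial relations, completeness of a list of relations
-/

set_option autoImplicit false

namespace Pool.Agent.H76.NG

/-- The congruence on `ℕ^4` generated by a list of pairs. -/
inductive Rel (L : List ((Fin 4 → ℕ) × (Fin 4 → ℕ))) : (Fin 4 → ℕ) → (Fin 4 → ℕ) → Prop
  | base {u v : Fin 4 → ℕ} : (u, v) ∈ L → Rel L u v
  | refl (u : Fin 4 → ℕ) : Rel L u u
  | symm {u v : Fin 4 → ℕ} : Rel L u v → Rel L v u
  | trans {u v w : Fin 4 → ℕ} : Rel L u v → Rel L v w → Rel L u w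
  | add {u v : Fin 4 → ℕ} (c : Fin 4 → ℕ) : Rel L u v → Rel L (u + c) (v + c)

namespace SG

variable (G : SG)

/-- the degree of a monomial -/
def deg (u : Fin 4 → ℕ) : ℤ :=
  u 0 * G.n 0 + u 1 * G.n 1 + u 2 * G.n 2 + u 3 * G.n 3

/-- `L` is a list of relations of `S` which generate all relations -/
def Complete (L : List ((Fin 4 → ℕ) × (Fin 4 → ℕ))) : Prop :=
  (∀ p ∈ L, G.deg p.1 = G.deg p.2) ∧ ∀ u v, G.deg u = G.deg v → Rel L u v

variable {G}

theorem deg_add (u v : Fin 4 → ℕ) : G.deg (u + v) = G.deg u + G.deg v := by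
  unfold deg; push_cast [Pi.add_apply]; ring

theorem S_deg (u : Fin 4 → ℕ) : G.S (G.deg u) := S_comb _ _ _ _

theorem deg_nonneg (u : Fin 4 → ℕ) : 0 ≤ G.deg u := G.nonneg (S_deg u)

/-- every element of `S` is the degree of a monomial -/
theorem exists_deg {x : ℤ} (h : G.S x) : ∃ u : Fin 4 → ℕ, G.deg u = x := by
  obtain ⟨a, b, c, e, he⟩ := fac h
  exact ⟨![a, b, c, e], by simp [deg, he]⟩

/-- Completeness from normal forms.  `Std` : standard monomials (without the variable `0`). -/
theorem complete_of_normal (L : List ((Fin 4 → ℕ) × (Fin 4 → ℕ))) (Std : (Fin 4 → ℕ) → Prop)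
    (φ : (Fin 4 → ℕ) → ℕ)
    (hL : ∀ p ∈ L, G.deg p.1 = G.deg p.2)
    (h1 : ∀ u, u 0 = 0 → Std u ∨ (∃ v, Rel L u v ∧ v 0 ≠ 0) ∨
      (∃ v, Rel L u v ∧ v 0 = 0 ∧ φ v < φ u))
    (h2 : ∀ u, u 0 = 0 → Std u → ¬ G.S (G.deg u - G.n 0))
    (h3 : ∀ u v, u 0 = 0 → v 0 = 0 → Std u → Std v → G.deg u = G.deg v → u = v) :
    G.Complete L := by
  have hrel : ∀ {u v : Fin 4 → ℕ}, Rel L u v → G.deg u = G.deg v := by
    intro u v h
    induction h with
    | base h => exact hL _ h
    | refl => rfl
    | symm _ ih => exact ih.symm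
    | trans _ _ ih1 ih2 => exact ih1.trans ih2
    | add c _ ih => rw [deg_add, deg_add, ih]
  -- reduction to normal form
  have hnf : ∀ m : ℕ, ∀ u : Fin 4 → ℕ, φ u ≤ m → u 0 = 0 →
      (∃ v, Rel L u v ∧ v 0 ≠ 0) ∨ (∃ v, Rel L u v ∧ v 0 = 0 ∧ Std v) := by
    intro m
    induction m with
    | zero =>
      intro u hu hu0
      rcases h1 u hu0 with h | h | ⟨v, _, _, h⟩
      · exact Or.inr ⟨u, Rel.refl u, hu0, h⟩
      · exact Or.inl h
      · omega
    | succ m ih =>
      intro u hu hu0
      rcases h1 u hu0 with h | h | ⟨v, hv, hv0, h⟩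
      · exact Or.inr ⟨u, Rel.refl u, hu0, h⟩
      · exact Or.inl h
      · rcases ih v (by omega) hv0 with ⟨w, hw, hw0⟩ | ⟨w, hw, hw0, hw1⟩
        · exact Or.inl ⟨w, hv.trans hw, hw0⟩
        · exact Or.inr ⟨w, hv.trans hw, hw0, hw1⟩
  have hnf' : ∀ u : Fin 4 → ℕ, (∃ v, Rel L u v ∧ v 0 ≠ 0) ∨ (∃ v, Rel L u v ∧ v 0 = 0 ∧ Std v) := by
    intro u
    by_cases hu : u 0 = 0
    · exact hnf _ u le_rfl hu
    · exact Or.inl ⟨u, Rel.refl u, hu⟩
  -- split off the variable `0`
  have hsplit : ∀ u : Fin 4 → ℕ, u 0 ≠ 0 → ∃ u' : Fin 4 → ℕ, u = u' + Pi.single 0 1 := by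
    intro u hu
    refine ⟨fun i => if i = 0 then u 0 - 1 else u i, ?_⟩
    funext i
    by_cases hi : i = 0
    · subst hi
      simp; omega
    · simp [hi, Pi.single_apply]
  have hdegs : ∀ u' : Fin 4 → ℕ, G.deg (u' + Pi.single 0 1) = G.deg u' + G.n 0 := by
    intro u'
    rw [deg_add]
    simp [deg]
  refine ⟨hL, ?_⟩
  have main : ∀ m : ℕ, ∀ u v : Fin 4 → ℕ, G.deg u ≤ m → G.deg u = G.deg v → Rel L u v := by
    intro m
    induction m with
    | zero =>
      intro u v hu huv
      have key : ∀ w : Fin 4 → ℕ, G.deg w ≤ 0 → w = 0 := by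
        intro w hw
        have p0 := G.npos 0
        have p1 := G.npos 1
        have p2 := G.npos 2
        have p3 := G.npos 3
        unfold deg at hw
        have q0 : (0 : ℤ) ≤ w 0 * G.n 0 := by positivity
        have q1 : (0 : ℤ) ≤ w 1 * G.n 1 := by positivity
        have q2 : (0 : ℤ) ≤ w 2 * G.n 2 := by positivity
        have q3 : (0 : ℤ) ≤ w 3 * G.n 3 := by positivity
        have z0 : (w 0 : ℤ) * G.n 0 = 0 := by linarith
        have z1 : (w 1 : ℤ) * G.n 1 = 0 := by linarith
        have z2 : (w 2 : ℤ) * G.n 2 = 0 := by linarith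
        have z3 : (w 3 : ℤ) * G.n 3 = 0 := by linarith
        have y0 : w 0 = 0 := by
          rcases mul_eq_zero.1 z0 with h | h
          · exact_mod_cast h
          · omega
        have y1 : w 1 = 0 := by
          rcases mul_eq_zero.1 z1 with h | h
          · exact_mod_cast h
          · omega
        have y2 : w 2 = 0 := by
          rcases mul_eq_zero.1 z2 with h | h
          · exact_mod_cast h
          · omega
        have y3 : w 3 = 0 := by
          rcases mul_eq_zero.1 z3 with h | h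
          · exact_mod_cast h
          · omega
        funext i
        fin_cases i <;> simp [y0, y1, y2, y3]
      have hu' := key u (by exact_mod_cast hu)
      have hv' := key v (by rw [← huv]; exact_mod_cast hu)
      rw [hu', hv']
      exact Rel.refl _
    | succ m ih =>
      intro u v hu huv
      have hn0 := G.npos 0
      rcases hnf' u with ⟨u1, hu1, hu10⟩ | ⟨u1, hu1, hu10, hu1s⟩
      · rcases hnf' v with ⟨v1, hv1, hv10⟩ | ⟨v1, hv1, hv10, hv1s⟩
        · obtain ⟨u2, rfl⟩ := hsplit u1 hu10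
          obtain ⟨v2, rfl⟩ := hsplit v1 hv10
          have e1 := hrel hu1
          have e2 := hrel hv1
          rw [hdegs] at e1 e2
          have := ih u2 v2 (by push_cast at hu; linarith) (by linarith)
          exact hu1.trans ((this.add _).trans hv1.symm)
        · exfalso
          obtain ⟨u2, rfl⟩ := hsplit u1 hu10
          have e1 := hrel hu1
          have e2 := hrel hv1
          rw [hdegs] at e1
          apply h2 v1 hv10 hv1s
          have : G.deg v1 - G.n 0 = G.deg u2 := by linarith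
          rw [this]
          exact S_deg u2
      · rcases hnf' v with ⟨v1, hv1, hv10⟩ | ⟨v1, hv1, hv10, hv1s⟩
        · exfalso
          obtain ⟨v2, rfl⟩ := hsplit v1 hv10
          have e1 := hrel hu1
          have e2 := hrel hv1
          rw [hdegs] at e2
          apply h2 u1 hu10 hu1s
          have : G.deg u1 - G.n 0 = G.deg v2 := by linarith
          rw [this]
          exact S_deg v2
        · have e1 := hrel hu1
          have e2 := hrel hv1
          have := h3 u1 v1 hu10 hv10 hu1s hv1s (by rw [← e1, huv, e2])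
          rw [this] at hu1
          exact hu1.trans hv1.symm
  intro u v huv
  exact main (G.deg u).toNat u v (by have := deg_nonneg (G := G) u; omega) huv

end SG

end Pool.Agent.H76.NG
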