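import Pool.Agent.H76.NG.Rel
import Pool.Agent.H76.NG.Range

/-!
# Type 2 and 3: duality in the form used everywhere
-/

set_option autoImplicit false

namespace Pool.Agent.H76.NG

namespace SG

variable {G : SG}

theorem K_congr {x y : ℤ} (h : G.K x) (e : x = y) : G.K y := e ▸ h

theorem S_congr {x y : ℤ} (h : G.S x) (e : x = y) : G.S y := e ▸ h

theorem T2.swap_iff {d : ℤ} (h : G.T2 d) (x : ℤ) : G.K x ↔ G.S x ∨ G.S (x - d) := by
  constructor
  · exact h.kgen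
  · rintro (h1 | h1)
    · exact K_of_S h1
    · exact K_congr (K_add h.kd h1) (by ring)

theorem T3.K_iff {d1 d2 : ℤ} (h : G.T3 d1 d2) (x : ℤ) :
    G.K x ↔ G.S x ∨ G.S (x - d1) ∨ G.S (x - d2) := by
  constructor
  · exact h.kgen
  · rintro (h1 | h1 | h1)
    · exact K_of_S h1
    · exact K_congr (K_add h.kd1 h1) (by ring)
    · exact K_congr (K_add h.kd2 h1) (by ring)

theorem T3.swap {d1 d2 : ℤ} (h : G.T3 d1 d2) : G.T3 d2 d1 :=
  ⟨fun hx => by rcases h.kgen hx with h1 | h1 | h1 <;> tauto, h.kd2, h.kd1, h.nd2, h.nd1,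
    h.nd21, h.nd12⟩

theorem pos_of_K {d : ℤ} (h : G.K d) (h' : ¬ G.S d) : 0 < d := by
  have h1 := K_nonneg h
  rcases h1.lt_or_eq with h2 | h2
  · exact h2
  · exact absurd (h2 ▸ G.zero) h'

theorem T3.d1_pos {d1 d2 : ℤ} (h : G.T3 d1 d2) : 0 < d1 := pos_of_K h.kd1 h.nd1

theorem T3.d2_pos {d1 d2 : ℤ} (h : G.T3 d1 d2) : 0 < d2 := pos_of_K h.kd2 h.nd2

theorem T2.d_pos {d : ℤ} (h : G.T2 d) : 0 < d := pos_of_K h.kd h.nd

/-- duality with respect to `m = F + w` for any integer `w` -/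
theorem T3.S_m_iff {d1 d2 : ℤ} (h : G.T3 d1 d2) (w v : ℤ) :
    G.S (G.F + w - v) ↔ ¬ G.S (v - w) ∧ ¬ G.S (v - w - d1) ∧ ¬ G.S (v - w - d2) := by
  have e : G.F - (v - w) = G.F + w - v := by ring
  have h1 := h.K_iff (v - w)
  have h2 := not_K_iff (G := G) (x := v - w)
  rw [e] at h2
  rw [← h2, h1]
  push Not
  rfl

theorem T2.S_m_iff {d : ℤ} (h : G.T2 d) (w v : ℤ) :
    G.S (G.F + w - v) ↔ ¬ G.S (v - w) ∧ ¬ G.S (v - w - d) := by
  have e : G.F - (v - w) = G.F + w - v := by ring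
  have h1 := h.swap_iff (v - w)
  have h2 := not_K_iff (G := G) (x := v - w)
  rw [e] at h2
  rw [← h2, h1]
  push Not
  rfl

/-- if neither `v - w` nor `F + w - v` is in `S` then `F + w - v` is in `K` -/
theorem K_m {w v : ℤ} (h1 : ¬ G.S (v - w)) : G.K (G.F + w - v) := by
  intro h
  exact h1 (S_congr h (by ring))

theorem T3.not_F_d1 {d1 d2 : ℤ} (h : G.T3 d1 d2) : ¬ G.S (G.F - d1) := h.kd1

theorem T3.not_F_d2 {d1 d2 : ℤ} (h : G.T3 d1 d2) : ¬ G.S (G.F - d2) := h.kd2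

/-- adding elements of `S` on the right-hand side -/
theorem not_S_of_add {x s : ℤ} (h : ¬ G.S (x + s)) (hs : G.S s) : ¬ G.S x := fun h' => h (G.add h' hs)

end SG

end Pool.Agent.H76.NG
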